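import Pool.Agent.H76.HMS.ExStmts
import Pool.Agent.H91.HMS.RLib

/-!
# HMS, module EAP: semantics of the programs `app` and `pull`
-/

set_option autoImplicit false

namespace Pool.HMS

open TMLib Finset

theorem eap_sumTo (n : ℕ) (f : ℕ → ℚ) : sumTo n f = ∑ i ∈ range n, f i := by
  unfold sumTo
  induction n with
  | zero => simp
  | succ n ih => rw [List.range_succ, List.map_append, List.sum_append, ih, Finset.sum_range_succ]; simp

theorem eap_fn_nil (j : ℕ) : fn [] j = 0 := by simp [fn]

theorem eap_ent_map (N : Mat) (g : Vec → Vec) (i j : ℕ) (h : i < N.length) :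
    ent (N.map g) i j = fn (g (N.getD i [])) j := by
  unfold ent
  rw [List.getD_eq_getElem?_getD, List.getElem?_map, List.getD_eq_getElem?_getD]
  simp [h]

theorem eap_ent_map_of_le (N : Mat) (g : Vec → Vec) (i j : ℕ) (h : N.length ≤ i) :
    ent (N.map g) i j = 0 := by
  unfold ent
  rw [List.getD_eq_getElem?_getD, List.getElem?_map]
  simp [h, fn]

theorem eap_ent_of_le (N : Mat) (i j : ℕ) (h : N.length ≤ i) : ent N i j = 0 := by
  unfold ent
  rw [List.getD_eq_getElem?_getD]
  simp [h, fn]

theorem eap_ent_idMat (n i c : ℕ) :
    ent (idMat n) i c = if i < n ∧ c = i + 1 then 1 else 0 := by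
  unfold ent idMat
  rw [List.getD_eq_getElem?_getD, List.getElem?_map]
  by_cases h : i < n
  · simp only [h, List.getElem?_range, Option.map_some, Option.getD_some, fn_tab, true_and]
    by_cases h2 : c = i + 1
    · simp [h2, h]
    · simp [h2]
  · simp [h, fn]

theorem eap_aff_pull (e e' : ℕ) (N : Mat) (s : Vec) (x : ℕ → ℚ) :
    aff e' (fn (pull e e' N s)) x = aff e (fn s) (appF e e' N x) := by
  unfold aff pull appF
  simp only [fn_tab, eap_sumTo]
  have h1 : ∀ c ∈ range e', (if c + 1 < e' + 1 then
      (if c + 1 = 0 then fn s 0 else 0) + ∑ i ∈ range e, fn s (i + 1) * ent N i (c + 1) else 0) * x c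
      = ∑ i ∈ range e, fn s (i + 1) * ent N i (c + 1) * x c := by
    intro c hc
    rw [if_pos (by have := Finset.mem_range.1 hc; omega), if_neg (by omega), zero_add,
      Finset.sum_mul]
  rw [Finset.sum_congr rfl h1, Finset.sum_comm, if_pos (Nat.succ_pos _), if_pos trivial]
  have h2 : ∀ i ∈ range e, fn s (i + 1) *
      (if i < e then ent N i 0 + ∑ c ∈ range e', ent N i (c + 1) * x c else 0) =
      fn s (i + 1) * ent N i 0 + ∑ c ∈ range e', fn s (i + 1) * ent N i (c + 1) * x c := by
    intro i hi
    rw [if_pos (Finset.mem_range.1 hi), mul_add, Finset.mul_sum]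
    congr 1
    exact Finset.sum_congr rfl fun c _ => by ring
  rw [Finset.sum_congr rfl h2, Finset.sum_add_distrib, add_assoc]

theorem eap_thm : S_EAP := by
  refine ⟨?_, ?_, ?_, eap_aff_pull, ?_, ?_, ?_, ?_, ?_⟩
  · intro e e' N x
    funext i
    unfold app appF
    rw [fn_tab, eap_sumTo]
  · intro e e' N x
    exact length_tab _ _
  · intro e e' N s
    exact length_tab _ _
  · intro e e' N x i hi
    unfold appF
    rw [if_neg (by omega)]
  · intro D e e' N S x
    funext i
    by_cases hi : i < D
    · have h1 : appF D e' (N.map (pull e e' S)) x i =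
          ent (N.map (pull e e' S)) i 0 +
            ∑ c ∈ range e', ent (N.map (pull e e' S)) i (c + 1) * x c := by
        unfold appF; rw [if_pos hi]
      have h2 : appF D e N (appF e e' S x) i =
          ent N i 0 + ∑ c ∈ range e, ent N i (c + 1) * (appF e e' S x) c := by
        unfold appF; rw [if_pos hi]
      rw [h1, h2]
      by_cases hN : i < N.length
      · have := eap_aff_pull e e' S (N.getD i []) x
        unfold aff at this
        rw [eap_ent_map N _ i 0 hN]
        simp only [eap_ent_map N _ i _ hN]
        exact this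
      · push Not at hN
        simp [eap_ent_map_of_le N _ i _ hN, eap_ent_of_le N i _ hN]
    · unfold appF
      rw [if_neg hi, if_neg hi]
  · intro n x hx
    funext i
    unfold appF
    by_cases hi : i < n
    · rw [if_pos hi]
      simp only [eap_ent_idMat]
      rw [if_neg (by omega), zero_add, Finset.sum_eq_single i]
      · simp [hi]
      · intro c _ hc
        rw [if_neg (by omega), zero_mul]
      · intro h
        exact absurd (Finset.mem_range.2 hi) h
    · rw [if_neg hi, hx i (by omega)]
  · intro e e' N x y t
    funext i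
    unfold appF
    by_cases hi : i < e
    · simp only [if_pos hi]
      have h1 : ∑ c ∈ range e', ent N i (c + 1) * (x c + t * (x c - y c)) =
          ∑ c ∈ range e', ent N i (c + 1) * x c +
            t * (∑ c ∈ range e', ent N i (c + 1) * x c - ∑ c ∈ range e', ent N i (c + 1) * y c) := by
        rw [← Finset.sum_sub_distrib, Finset.mul_sum, ← Finset.sum_add_distrib]
        exact Finset.sum_congr rfl fun c _ => by ring
      rw [h1]; ring
    · simp only [if_neg hi]
      ring
  · intro e e' N x hN hx
    refine ⟨fun i hi => ?_, fun i => ?_⟩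
    · unfold appF
      rw [if_neg (by omega)]
    · unfold appF
      by_cases hi : i < e
      · rw [if_pos hi]
        exact (hN _ _).add (IsI.sum fun c _ => (hN _ _).mul (hx.2 c))
      · rw [if_neg hi]
        exact IsI.zero

end Pool.HMS
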