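import Pool.Agent.H73.HMS.ESL

/-!
# HMS, module EGR: growth of the nodes in one slicing
-/

set_option autoImplicit false

namespace Pool.HMS

open TMLib Finset

theorem IsI.abs' {a : ℚ} (ha : IsI a) : IsI |a| := by
  obtain ⟨z, rfl⟩ := ha
  exact ⟨|z|, by push_cast; rfl⟩

theorem egr_mem_kList {b : ℕ} {k0 k1 k : ℚ} (h : k ∈ kList b k0 k1) :
    (∃ i : ℕ, k = k0 + i) ∧ k ≤ k1 := by
  unfold kList at h
  simp only [List.bind_eq_flatMap, List.pure_def, List.mem_filter, List.mem_map,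
    List.mem_flatMap, List.mem_range, List.mem_singleton, decide_eq_true_eq] at h
  obtain ⟨⟨q, ⟨i, _, rfl⟩, rfl⟩, h2⟩ := h
  exact ⟨⟨i, rfl⟩, h2⟩

theorem egr_nat_le {e D : ℕ} {X : ℚ} (he : e ≤ D) (hX : 2 ≤ X) : (e : ℚ) ≤ X ^ D := by
  have h1 : (e : ℚ) ≤ 2 ^ e := by exact_mod_cast (Nat.lt_two_pow_self (n := e)).le
  have h2 : (2 : ℚ) ^ e ≤ X ^ e := pow_le_pow_left₀ (by norm_num) hX e
  have h3 : X ^ e ≤ X ^ D := pow_le_pow_right₀ (by linarith) he
  exact h1.trans (h2.trans h3)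

theorem egr_fn_pull (e e' : ℕ) (S : Mat) (s : Vec) (c : ℕ) :
    fn (pull e e' S s) c = if c < e' + 1 then (if c = 0 then fn s 0 else 0) +
      ∑ i ∈ range e, fn s (i + 1) * ent S i c else 0 := by
  unfold pull
  rw [fn_tab, eap_sumTo]

theorem egr_thm : S_EGR := by
  intro cr C D b B x r hBI hB hx he1 hC hU hgr hk0 hb0 hb1 y hy
  unfold kids at hy
  rw [List.mem_map] at hy
  obtain ⟨k, hk, rfl⟩ := hy
  obtain ⟨⟨m, hm⟩, hkk1⟩ := egr_mem_kList hk
  have hB1 : (1 : ℚ) ≤ B := by linarith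
  have hX1 : (1 : ℚ) ≤ x.2.2 := by linarith [hx.two]
  have hX0 : (0 : ℚ) ≤ x.2.2 := by linarith
  have hkI : IsI k := by rw [hm]; exact hk0.add (IsI.nat m)
  have hk0k : r.2.2.1 ≤ k := by
    rw [hm]
    have : (0 : ℚ) ≤ m := Nat.cast_nonneg m
    linarith
  have hkabs : |k| ≤ x.2.2 ^ cr x.1 := by
    rw [abs_le]
    have h1 := (abs_le.1 hb0).1
    have h2 := (abs_le.1 hb1).2
    constructor <;> linarith
  have hXC : x.2.2 ^ C ≤ B ^ (C ^ (D - x.1 + 1)) := by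
    rw [pow_succ, pow_mul]
    exact pow_le_pow_left₀ hX0 hx.bB C
  have heX : (x.1 : ℚ) ≤ x.2.2 ^ D := egr_nat_le hx.le hx.two
  have hDe : D - (x.1 - 1) = D - x.1 + 1 := by have := hx.le; omega
  have hXc1 : (1 : ℚ) ≤ x.2.2 ^ cr x.1 := one_le_pow₀ hX1
  have hXD1 : (1 : ℚ) ≤ x.2.2 ^ D := one_le_pow₀ hX1
  have hsum : absSum x.1 r.2.1.2 ≤ x.2.2 ^ (D + D + cr x.1) := by
    rw [esl_absSum]
    have h1 : ∀ i ∈ range x.1, ∑ j ∈ range x.1, |ent r.2.1.2 i j| ≤ x.1 * x.2.2 ^ cr x.1 := by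
      intro i _
      refine (Finset.sum_le_sum (g := fun _ => x.2.2 ^ cr x.1)
        fun j _ => (hgr i j).2).trans ?_
      rw [Finset.sum_const, Finset.card_range, nsmul_eq_mul]
    refine (Finset.sum_le_sum h1).trans ?_
    rw [Finset.sum_const, Finset.card_range, nsmul_eq_mul, pow_add, pow_add, mul_assoc]
    exact mul_le_mul heX (mul_le_mul heX le_rfl (by positivity) (by positivity)) (by positivity)
      (by positivity)
  have hA : 0 ≤ absSum x.1 r.2.1.2 := by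
    rw [esl_absSum]
    exact Finset.sum_nonneg fun i _ => Finset.sum_nonneg fun j _ => abs_nonneg _
  -- entries of the slice
  have hS : ∀ i c, |ent (slice x.1 r.2.1.1 k) i c| ≤ x.2.2 ^ (cr x.1 + cr x.1) := by
    intro i c
    rw [esl_ent_slice, pow_add]
    split_ifs with h1 h2
    · rw [abs_mul]
      exact mul_le_mul hkabs (hgr _ _).1 (abs_nonneg _) (by positivity)
    · have := (hgr (c - 1) i).1
      nlinarith [abs_nonneg (ent r.2.1.1 (c - 1) i)]
    · rw [abs_zero]; positivity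
  have hSI : ∀ i c, IsI (ent (slice x.1 r.2.1.1 k) i c) := by
    intro i c
    rw [esl_ent_slice]
    split_ifs with h1 h2
    · exact hkI.mul (hU.intU _ _)
    · exact hU.intU _ _
    · exact IsI.zero
  have hrow : ∀ i j, ent (x.2.1.map (pull x.1 (x.1 - 1) (slice x.1 r.2.1.1 k))) i j =
      if i < D ∧ j < x.1 - 1 + 1 then (if j = 0 then ent x.2.1 i 0 else 0) +
      ∑ l ∈ range x.1, ent x.2.1 i (l + 1) * ent (slice x.1 r.2.1.1 k) l j else 0 := by
    intro i j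
    by_cases hi : i < x.2.1.length
    · have hi' : i < D := by rw [← hx.len]; exact hi
      rw [eap_ent_map _ _ _ _ hi, egr_fn_pull]
      by_cases hj : j < x.1 - 1 + 1
      · rw [if_pos hj]
        exact (if_pos ⟨hi', hj⟩).symm
      · rw [if_neg hj, if_neg (fun h => hj h.2)]
    · push Not at hi
      rw [eap_ent_map_of_le _ _ _ _ hi, if_neg]
      rintro ⟨h1, _⟩
      rw [← hx.len] at h1
      omega
  refine ⟨⟨?_, ?_, ?_, ?_, ?_, ?_, ?_, ?_⟩, ?_⟩
  · show x.1 - 1 ≤ D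
    have := hx.le
    omega
  · show (x.2.1.map _).length = D
    rw [List.length_map]
    exact hx.len
  · intro r' hr'
    have hr'' := List.mem_map.1 hr'
    obtain ⟨s, _, rfl⟩ := hr''
    exact length_tab _ _
  · intro i j
    show IsI (ent (x.2.1.map (pull x.1 (x.1 - 1) (slice x.1 r.2.1.1 k))) i j)
    rw [hrow]
    split_ifs
    · exact (hx.int _ _).add (IsI.sum fun l _ => (hx.int _ _).mul (hSI _ _))
    · exact IsI.zero.add (IsI.sum fun l _ => (hx.int _ _).mul (hSI _ _))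
    · exact IsI.zero
  · show IsI (newB x.1 r.2.1.2 x.2.2)
    unfold newB
    rw [esl_absSum]
    exact hx.intB.mul (IsI.one.add (IsI.sum fun i _ => IsI.sum fun j _ => (hU.intW _ _).abs'))
  · show 2 ≤ newB x.1 r.2.1.2 x.2.2
    unfold newB
    nlinarith [hx.two]
  · show newB x.1 r.2.1.2 x.2.2 ≤ B ^ (C ^ (D - (x.1 - 1)))
    rw [hDe]
    refine le_trans ?_ hXC
    have h1 : newB x.1 r.2.1.2 x.2.2 ≤ x.2.2 ^ (D + D + cr x.1 + 2) := by
      unfold newB
      have h2 : (1 : ℚ) ≤ x.2.2 ^ (D + D + cr x.1) := one_le_pow₀ hX1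
      have h3 : 1 + absSum x.1 r.2.1.2 ≤ x.2.2 * x.2.2 ^ (D + D + cr x.1) := by
        nlinarith [hx.two]
      calc x.2.2 * (1 + absSum x.1 r.2.1.2) ≤ x.2.2 * (x.2.2 * x.2.2 ^ (D + D + cr x.1)) :=
            mul_le_mul_of_nonneg_left h3 hX0
        _ = x.2.2 ^ (D + D + cr x.1 + 2) := by ring
    exact h1.trans (pow_le_pow_right₀ hX1 (by omega))
  · intro i j
    show |ent (x.2.1.map (pull x.1 (x.1 - 1) (slice x.1 r.2.1.1 k))) i j| ≤
      B ^ (2 * C ^ (D - (x.1 - 1) + 1))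
    rw [hrow, hDe]
    have hC2 : 2 ≤ C := by omega
    have hM : ∀ i j, |ent x.2.1 i j| ≤ B ^ (2 * C ^ (D - x.1 + 1)) := hx.bN
    have hM0 : (0 : ℚ) ≤ B ^ (2 * C ^ (D - x.1 + 1)) := by positivity
    have hmain : B ^ (2 * C ^ (D - x.1 + 1)) * (1 + x.1 * x.2.2 ^ (cr x.1 + cr x.1)) ≤
        B ^ (2 * C ^ (D - x.1 + 1 + 1)) := by
      have h1 : 1 + x.1 * x.2.2 ^ (cr x.1 + cr x.1) ≤ x.2.2 ^ (D + (cr x.1 + cr x.1) + 1) := by
        have h2 : (1 : ℚ) ≤ x.2.2 ^ (D + (cr x.1 + cr x.1)) := one_le_pow₀ hX1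
        have h3 : (x.1 : ℚ) * x.2.2 ^ (cr x.1 + cr x.1) ≤ x.2.2 ^ (D + (cr x.1 + cr x.1)) := by
          rw [pow_add x.2.2 D]
          exact mul_le_mul_of_nonneg_right heX (by positivity)
        calc 1 + x.1 * x.2.2 ^ (cr x.1 + cr x.1) ≤
              2 * x.2.2 ^ (D + (cr x.1 + cr x.1)) := by linarith
          _ ≤ x.2.2 * x.2.2 ^ (D + (cr x.1 + cr x.1)) :=
              mul_le_mul_of_nonneg_right hx.two (by positivity)
          _ = x.2.2 ^ (D + (cr x.1 + cr x.1) + 1) := by ring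
      have h4 : x.2.2 ^ (D + (cr x.1 + cr x.1) + 1) ≤ x.2.2 ^ (C + C) :=
        pow_le_pow_right₀ hX1 (by omega)
      have h5 : x.2.2 ^ (C + C) ≤ B ^ (C ^ (D - x.1 + 1) + C ^ (D - x.1 + 1)) := by
        rw [pow_add, pow_add]
        exact mul_le_mul hXC hXC (by positivity) (by positivity)
      calc B ^ (2 * C ^ (D - x.1 + 1)) * (1 + x.1 * x.2.2 ^ (cr x.1 + cr x.1)) ≤
            B ^ (2 * C ^ (D - x.1 + 1)) * B ^ (C ^ (D - x.1 + 1) + C ^ (D - x.1 + 1)) :=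
            mul_le_mul_of_nonneg_left (h1.trans (h4.trans h5)) hM0
        _ = B ^ (2 * C ^ (D - x.1 + 1) + (C ^ (D - x.1 + 1) + C ^ (D - x.1 + 1))) := by
            rw [pow_add B (2 * C ^ (D - x.1 + 1))]
        _ ≤ B ^ (2 * C ^ (D - x.1 + 1 + 1)) := by
            refine pow_le_pow_right₀ hB1 ?_
            rw [pow_succ C (D - x.1 + 1)]
            nlinarith [Nat.zero_le (C ^ (D - x.1 + 1))]
    have hs : |∑ l ∈ range x.1, ent x.2.1 i (l + 1) * ent (slice x.1 r.2.1.1 k) l j| ≤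
        B ^ (2 * C ^ (D - x.1 + 1)) * (x.1 * x.2.2 ^ (cr x.1 + cr x.1)) := by
      refine (Finset.abs_sum_le_sum_abs _ _).trans ?_
      refine (Finset.sum_le_sum (g := fun _ => B ^ (2 * C ^ (D - x.1 + 1)) *
        x.2.2 ^ (cr x.1 + cr x.1)) fun l _ => ?_).trans ?_
      · rw [abs_mul]
        exact mul_le_mul (hM _ _) (hS _ _) (abs_nonneg _) hM0
      · rw [Finset.sum_const, Finset.card_range, nsmul_eq_mul]
        exact le_of_eq (by ring)
    split_ifs
    · refine (abs_add_le _ _).trans (le_trans ?_ hmain)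
      rw [mul_add, mul_one]
      exact add_le_add (hM _ _) hs
    · rw [zero_add]
      refine hs.trans (le_trans ?_ hmain)
      exact mul_le_mul_of_nonneg_left (by linarith) hM0
    · rw [abs_zero]; positivity
  · show x.1 - 1 + 1 = x.1
    omega

end Pool.HMS
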