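import Pool.Agent.H73.HMS.EAP

/-!
# HMS, module ESL: slices
-/

set_option autoImplicit false

namespace Pool.HMS

open TMLib Finset

theorem esl_ent_slice (D : ℕ) (U : Mat) (k : ℚ) (i c : ℕ) :
    ent (slice D U k) i c = if i < D ∧ c < D then
      (if c = 0 then k * ent U (D - 1) i else ent U (c - 1) i) else 0 := by
  unfold ent slice
  rw [List.getD_eq_getElem?_getD, List.getElem?_map]
  by_cases h : i < D
  · simp only [h, List.getElem?_range, Option.map_some, Option.getD_some, fn_tab, true_and]
    rfl
  · simp [h, fn]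

theorem esl_appF_slice (D : ℕ) (U : Mat) (k : ℚ) (x : ℕ → ℚ) (i : ℕ) (hi : i < D) :
    appF D (D - 1) (slice D U k) x i =
      ∑ c ∈ range D, ent U c i * (if c < D - 1 then x c else k) := by
  unfold appF
  rw [if_pos hi]
  obtain ⟨E, rfl⟩ : ∃ E, D = E + 1 := ⟨D - 1, by omega⟩
  simp only [Nat.add_sub_cancel]
  rw [Finset.sum_range_succ, if_neg (lt_irrefl E), esl_ent_slice, if_pos ⟨hi, by omega⟩, if_pos rfl,
    add_comm, Nat.add_sub_cancel, mul_comm k]
  congr 1
  refine Finset.sum_congr rfl fun c hc => ?_
  have hc' := Finset.mem_range.1 hc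
  rw [if_pos hc', esl_ent_slice, if_pos ⟨hi, by omega⟩, if_neg (by omega), Nat.add_sub_cancel]

/-- the other product is the identity too -/
theorem esl_inv' {D : ℕ} {U W : Mat} (h : Unimod D U W) {i j : ℕ} (hi : i < D) (hj : j < D) :
    ∑ c ∈ range D, ent W c i * ent U c j = if i = j then 1 else 0 := by
  let MU : Matrix (Fin D) (Fin D) ℚ := fun a b => ent U a b
  let MW : Matrix (Fin D) (Fin D) ℚ := fun a b => ent W a b
  have h1 : MU * MW.transpose = 1 := by
    ext a b
    rw [Matrix.mul_apply, Matrix.one_apply]
    have := h.inv a a.2 b b.2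
    rw [Finset.sum_range] at this
    simp only [Fin.ext_iff]
    exact this
  have h2 : MW.transpose * MU = 1 := mul_eq_one_comm.1 h1
  have h3 := congrFun (congrFun h2 ⟨i, hi⟩) ⟨j, hj⟩
  rw [Matrix.mul_apply, Matrix.one_apply] at h3
  rw [Finset.sum_range]
  simp only [Fin.ext_iff] at h3
  exact h3

theorem esl_recover {D : ℕ} {U W : Mat} (h : Unimod D U W) (y : ℕ → ℚ) {c : ℕ} (hc : c < D) :
    ∑ j ∈ range D, ent W c j * ∑ c' ∈ range D, ent U c' j * y c' = y c := by
  have h1 : ∑ j ∈ range D, ent W c j * ∑ c' ∈ range D, ent U c' j * y c' =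
      ∑ c' ∈ range D, (∑ j ∈ range D, ent U c' j * ent W c j) * y c' := by
    simp_rw [Finset.mul_sum, Finset.sum_mul]
    rw [Finset.sum_comm]
    exact Finset.sum_congr rfl fun c' _ => Finset.sum_congr rfl fun j _ => by ring
  rw [h1, Finset.sum_eq_single c]
  · rw [h.inv c hc c hc, if_pos rfl, one_mul]
  · intro b hb hbc
    rw [h.inv b (Finset.mem_range.1 hb) c hc, if_neg hbc, zero_mul]
  · intro hn
    exact absurd (Finset.mem_range.2 hc) hn

theorem esl_recover' {D : ℕ} {U W : Mat} (h : Unimod D U W) (y : ℕ → ℚ) {i : ℕ} (hi : i < D) :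
    ∑ c ∈ range D, ent U c i * ∑ j ∈ range D, ent W c j * y j = y i := by
  have h1 : ∑ c ∈ range D, ent U c i * ∑ j ∈ range D, ent W c j * y j =
      ∑ j ∈ range D, (∑ c ∈ range D, ent W c j * ent U c i) * y j := by
    simp_rw [Finset.mul_sum, Finset.sum_mul]
    rw [Finset.sum_comm]
    exact Finset.sum_congr rfl fun c' _ => Finset.sum_congr rfl fun j _ => by ring
  rw [h1, Finset.sum_eq_single i]
  · rw [esl_inv' h hi hi, if_pos rfl, one_mul]
  · intro b hb hbc
    rw [esl_inv' h (Finset.mem_range.1 hb) hi, if_neg hbc, zero_mul]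
  · intro hn
    exact absurd (Finset.mem_range.2 hi) hn

theorem esl_absSum (D : ℕ) (W : Mat) :
    absSum D W = ∑ i ∈ range D, ∑ j ∈ range D, |ent W i j| := by
  unfold absSum
  rw [eap_sumTo]
  exact Finset.sum_congr rfl fun i _ => eap_sumTo _ _

theorem esl_thm : S_ESL := by
  intro D U W hD h
  refine ⟨?_, ?_, ?_⟩
  · intro x hx
    refine ⟨fun c => if c < D - 1 then ∑ j ∈ range D, ent W c j * x j else 0, ⟨?_, ?_⟩, ?_⟩
    · intro i hi
      exact if_neg (by omega)
    · intro i
      show IsI (if i < D - 1 then ∑ j ∈ range D, ent W i j * x j else 0)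
      by_cases hi : i < D - 1
      · rw [if_pos hi]
        exact IsI.sum fun j _ => (h.intW _ _).mul (hx.2 j)
      · rw [if_neg hi]
        exact IsI.zero
    · funext i
      by_cases hi : i < D
      · rw [esl_appF_slice D U _ _ i hi]
        have h1 : ∀ c ∈ range D, ent U c i * (if c < D - 1 then
            (if c < D - 1 then ∑ j ∈ range D, ent W c j * x j else 0) else
              ∑ c ∈ range D, ent W (D - 1) c * x c) =
            ent U c i * ∑ j ∈ range D, ent W c j * x j := by
          intro c hc
          have hc' := Finset.mem_range.1 hc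
          by_cases hc2 : c < D - 1
          · rw [if_pos hc2, if_pos hc2]
          · rw [if_neg hc2]
            have : c = D - 1 := by omega
            rw [this]
        rw [Finset.sum_congr rfl h1]
        exact esl_recover' h x hi
      · unfold appF
        rw [if_neg hi, hx.1 i (by omega)]
  · intro k B x' hB hx' hbox
    refine ⟨hx', fun c => ?_⟩
    have hA : 0 ≤ absSum D W := by
      rw [esl_absSum]
      exact Finset.sum_nonneg fun i _ => Finset.sum_nonneg fun j _ => abs_nonneg _
    by_cases hc : c < D - 1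
    · have hcD : c < D := by omega
      have h1 := esl_recover h (fun c => if c < D - 1 then x' c else k) hcD
      simp only [if_pos hc] at h1
      rw [← h1]
      have h2 : ∀ j ∈ range D, |ent W c j * ∑ c' ∈ range D, ent U c' j *
          (if c' < D - 1 then x' c' else k)| ≤ |ent W c j| * B := by
        intro j hj
        rw [abs_mul, ← esl_appF_slice D U k x' j (Finset.mem_range.1 hj)]
        exact mul_le_mul_of_nonneg_left (hbox.2 j) (abs_nonneg _)
      refine (Finset.abs_sum_le_sum_abs _ _).trans ((Finset.sum_le_sum h2).trans ?_)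
      rw [← Finset.sum_mul]
      have h3 : ∑ j ∈ range D, |ent W c j| ≤ absSum D W := by
        rw [esl_absSum]
        exact Finset.single_le_sum (f := fun i => ∑ j ∈ range D, |ent W i j|)
          (fun i _ => Finset.sum_nonneg fun j _ => abs_nonneg _) (Finset.mem_range.2 hcD)
      unfold newB
      nlinarith
    · rw [hx' c (by omega), abs_zero]
      unfold newB
      positivity
  · intro k hk
    refine ⟨fun i j => ?_, ?_, ?_⟩
    · rw [esl_ent_slice]
      by_cases h1 : i < D ∧ j < D
      · rw [if_pos h1]
        by_cases h2 : j = 0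
        · rw [if_pos h2]
          exact hk.mul (h.intU _ _)
        · rw [if_neg h2]
          exact h.intU _ _
      · rw [if_neg h1]
        exact IsI.zero
    · simp [slice]
    · intro r hr
      unfold slice at hr
      rw [List.mem_map] at hr
      obtain ⟨i, _, rfl⟩ := hr
      exact length_tab _ _

end Pool.HMS
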